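import Pool.Agent.H23.Heis

namespace Pool.Agent.Results.MP_496bc7_gt.NotOpen

open Pool.Agent.H23 Topology

/-- `Cent T` in a semigroup. -/
def Cent {S : Type} [Semigroup S] (T : Set S) : Set S := {g | ∀ t ∈ T, g * t = t * g}

/-- `S(F)`. -/
def SF {S X : Type} (supp : S → Set X) (F : Set X) : Set S := {f | supp f ⊆ F}

/-- A supp-perfect supp-semigroup. -/
structure SuppPerfect {S X : Type} [Semigroup S] (supp : S → Set X) : Prop where
  mul : ∀ f g, supp (f * g) ⊆ supp f ∪ supp g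
  comm : ∀ f g, supp f ∩ supp g = ∅ → f * g = g * f
  cover : (⋃ f, supp f) = Set.univ
  fin : ∀ f, (supp f).Finite
  finS : ∀ F : Set X, F.Finite → (SF supp F).Finite
  cent : ∀ F : Set X, F.Finite → SF supp F = Cent (SF supp Fᶜ)

abbrev P := ℕ × ZMod 2

def sp (g : Equiv.Perm P) : Set ℕ := {x | ∃ e, g (x, e) ≠ (x, e)}

theorem sp_mul (f g : Equiv.Perm P) : sp (f * g) ⊆ sp f ∪ sp g := by
  rintro x ⟨e, h⟩
  by_contra hx
  simp only [sp, Set.mem_union, Set.mem_ofPred_eq, not_or, not_exists, not_not] at hx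
  exact h (by simp [hx])

theorem sp_inv (f : Equiv.Perm P) : sp f⁻¹ = sp f := by
  ext x
  exact exists_congr fun e => not_congr (Equiv.Perm.inv_eq_iff_eq.trans eq_comm)

def B : Subgroup (Equiv.Perm P) where
  carrier := {g | (sp g).Finite ∧ ∀ p c, g (p + (0, c)) = g p + (0, c)}
  one_mem' := ⟨by simp [sp], fun _ _ => rfl⟩
  mul_mem' := fun h h' => ⟨(h.1.union h'.1).subset (sp_mul _ _), fun p c => by simp [h.2, h'.2]⟩
  inv_mem' := fun {g} h => ⟨sp_inv g ▸ h.1, fun p c => by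
    rw [Equiv.Perm.inv_eq_iff_eq, h.2]; simp⟩

theorem z0 : (1 + 1 : ZMod 2) = 0 := rfl

/-- flip on a finite set -/
def fl0 (F : Finset ℕ) (p : P) : P := if p.1 ∈ F then p + (0, 1) else p

theorem fl0_inv (F : Finset ℕ) : Function.Involutive (fl0 F) := fun ⟨x, e⟩ => by
  by_cases h : x ∈ F <;> simp [fl0, h, add_assoc, z0]

def fl (F : Finset ℕ) : B := ⟨(fl0_inv F).toPerm,
  F.finite_toSet.subset fun x ⟨e, h⟩ => by_contra fun hx => h (if_neg hx),
  fun p c => by by_cases h : p.1 ∈ F <;> simp [fl0, h, add_right_comm]⟩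

theorem fl_apply (F : Finset ℕ) (p : P) : (fl F).1 p = if p.1 ∈ F then p + (0, 1) else p := rfl

def sw (x y : ℕ) : B := ⟨(Equiv.swap x y).prodCongr (Equiv.refl _),
  (Set.toFinite {x, y}).subset fun z ⟨e, h⟩ => by_contra fun hz => h (by
    simp only [Set.mem_insert_iff, Set.mem_singleton_iff, not_or] at hz
    simp [Equiv.swap_apply_of_ne_of_ne hz.1 hz.2]),
  fun p c => Prod.ext (by simp) (by simp)⟩

theorem dis {f g : Equiv.Perm P} (h : sp f ∩ sp g = ∅) : f.Disjoint g := fun p => by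
  by_contra hp
  push Not at hp
  exact Set.eq_empty_iff_forall_notMem.1 h p.1 ⟨⟨p.2, hp.1⟩, ⟨p.2, hp.2⟩⟩

theorem perfect : SuppPerfect fun g : B => sp g.1 where
  mul f g := sp_mul _ _
  comm f g h := Subtype.ext (dis h).commute.eq
  cover := Set.eq_univ_of_forall fun x => Set.mem_iUnion.2 ⟨fl {x}, 0, by simp [fl_apply]⟩
  fin f := f.2.1
  finS F hF := by
    have fin : (F ×ˢ (Set.univ : Set (ZMod 2))).Finite := hF.prod Set.finite_univ
    have out : ∀ g ∈ SF (fun g : B => sp g.1) F, ∀ p : P, p.1 ∉ F → g.1 p = p :=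
      fun g hg p hp => by_contra fun e => hp (hg ⟨p.2, e⟩)
    have := fin.to_subtype
    refine Set.Finite.of_finite_image
      (f := fun (g : B) (p : F ×ˢ (Set.univ : Set (ZMod 2))) => g.1 p.1)
      ((Set.Finite.pi' fun _ => fin).subset ?_) fun g hg g' hg' e => ?_
    · rintro _ ⟨g, hg, rfl⟩ p
      refine ⟨by_contra fun h => h ?_, trivial⟩
      exact (congrArg (fun q : P => q.1 ∈ F) (g.1.injective (out g hg _ h))).mpr p.2.1
    · refine Subtype.ext (Equiv.ext fun p => ?_)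
      by_cases hp : p.1 ∈ F
      · exact congrFun e ⟨p, hp, trivial⟩
      · rw [out g hg p hp, out g' hg' p hp]
  cent F hF := by
    refine Set.Subset.antisymm (fun g hg t ht => Subtype.ext (dis ?_).commute.eq) ?_
    · exact Set.eq_empty_of_forall_notMem fun x hx => ht hx.2 (hg hx.1)
    rintro g hg x ⟨e, h⟩
    by_contra hx
    obtain ⟨y, hy⟩ := (hF.union g.2.1).exists_notMem
    simp only [Set.mem_union, sp, Set.mem_ofPred_eq, not_or, not_exists, not_not] at hy
    have := hg (sw x y) fun z ⟨e, h⟩ hz => h (by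
      have h1 : z ≠ x := fun e => hx (e ▸ hz)
      have h2 : z ≠ y := fun e => hy.1 (e ▸ hz)
      simp [sw, Equiv.swap_apply_of_ne_of_ne h1 h2])
    exact h (by simpa [sw, hy.2] using congrArg (fun g : B => g.1 (y, e)) this)

theorem result : ∃ (S : Type) (_ : Semigroup S) (X : Type) (supp : S → Set X) (x : X)
    (τ : TopologicalSpace S), SuppPerfect supp ∧ @T2Space S τ ∧ @ContinuousMul S τ _ ∧
      ¬ IsOpen[τ] {f | x ∈ supp f} := by
  obtain ⟨t, tg, t2, ht⟩ := Heis.exists_top (G := B) (fun F : Finset ℕ =>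
    { carrier := {g | ∃ c, ∀ p : P, p.1 ∈ F → g.1 p = p + (0, c)}
      one_mem' := ⟨0, fun _ _ => by simp⟩
      mul_mem' := fun {f g} ⟨c, h⟩ ⟨d, h'⟩ => ⟨c + d, fun p hp => by
        simp [h' p hp, f.2.2, h p hp, add_assoc]⟩
      inv_mem' := fun {g} ⟨c, h⟩ => ⟨-c, fun p hp => by
        rw [Subgroup.coe_inv, Equiv.Perm.inv_eq_iff_eq, g.2.2, h p hp]
        exact Prod.ext (by simp) (by simp only [Prod.snd_add]; ring)⟩ })
    (fun i j => ⟨i ∪ j, fun g ⟨c, h⟩ => ⟨c, fun v hv => h v (by simp [hv])⟩,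
      fun g ⟨c, h⟩ => ⟨c, fun v hv => h v (by simp [hv])⟩⟩)
    (fun g F => ⟨(F ×ˢ Finset.univ).image fun p => (g.1⁻¹ p).1, fun x ⟨c, hx⟩ => ⟨c, fun p hp => by
      have := hx _ (Finset.mem_image_of_mem (fun p => (g.1⁻¹ p).1)
        (show p ∈ F ×ˢ Finset.univ by simp [hp]))
      change g.1 (x.1 (g.1⁻¹ p)) = _
      rw [this, g.2.2]; simp⟩⟩)
    (fun x hx => Subtype.ext (Equiv.ext fun p => by
      obtain ⟨y, hy⟩ := x.2.1.exists_notMem
      obtain ⟨c, h⟩ := hx {p.1, y}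
      have h1 := h (y, 0) (by simp)
      rw [not_not.1 fun e => hy ⟨0, e⟩] at h1
      have : c = 0 := by simpa using (congrArg Prod.snd h1).symm
      exact (h p (by simp)).trans (this ▸ add_zero p)))
  refine ⟨B, inferInstance, ℕ, _, 0, t, perfect, t2, tg.toContinuousMul, fun h => ?_⟩
  obtain ⟨F, hF⟩ := (ht _).1 ((h.preimage (continuous_const_mul (fl {0}))).mem_nhds
    ⟨0, by simp [fl_apply]⟩)
  obtain ⟨e, he⟩ := hF (a := fl (insert 0 F)) ⟨1, fun p hp => by simp [fl_apply, hp]⟩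
  exact he (by simp [fl_apply, add_assoc, z0])

end Pool.Agent.Results.MP_496bc7_gt.NotOpen
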